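import Mathlib
import Pool.Graph.R_seed8.R636.BGap2

/-! An upper bound `2/5` for the probability of an inverted pair. -/

set_option autoImplicit false

namespace Pool.Agent.H3.Her

open Pool.Agent.H13R3.WB Pool.Agent.H931R3.Bal Pool.Agent.R636.BG

variable {P : Type} [Fintype P] [PartialOrder P]

/-- `u` and `v` are consecutive in a zigzag, `t` is the next element, and the elements above `v` which are
not above `t` are at most one element `s`. -/
structure Loc (P : Type) [PartialOrder P] (u v t : P) : Prop where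
  a : ∀ w, w < u → w < v
  b : ∀ w, v < w → u < w
  uv : ¬ u ≤ v
  vu : ¬ v ≤ u
  ut : u < t
  vt : ¬ v ≤ t
  tv : ¬ t ≤ v
  d : ∀ w, w < t → w = u ∨ w < v
  e : (∀ w, v < w → t < w) ∨ ∃ s, v < s ∧ ¬ t ≤ s ∧ ¬ s ≤ t ∧ (∀ w, v < w → w = s ∨ t < w) ∧
    (∀ w, w < t → w < s) ∧ (∀ w, s < w → t < w)

theorem Loc.le {u v t : P} (h : Loc P u v t) : prob P v u ≤ 2 / 5 := by
  have hn : Fintype.card P = Fintype.card P := rfl
  rw [prob_pb hn]
  have lt_of : ∀ (f : LEn P (Fintype.card P)) {x y : P}, x < y → f.1 x < f.1 y :=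
    fun f x y hxy => lt_of_mono f.2 hxy
  have huv : u ≠ v := fun h1 => h.uv h1.le
  have htu : t ≠ u := h.ut.ne'
  have htv : t ≠ v := fun h1 => h.tv h1.le
  -- the exchange of `v` and `u`
  have s1 : pb (fun f : LEn P (Fintype.card P) => f.1 v < f.1 u) ≤
      pb (fun f : LEn P (Fintype.card P) => f.1 u < f.1 v ∧ f.1 v < f.1 t) := by
    apply pb_swap v u
    · intro f hf
      exact ⟨hf, h.vu, fun w hw => lt_of f (h.a w hw), fun w hw => lt_of f (h.b w hw)⟩
    · intro f g hf g1 g2 g3
      refine ⟨by rw [g1, g2]; exact hf, ?_⟩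
      rw [g1, g3 t htv htu]
      exact lt_of f h.ut
  have s3 : pb (fun f : LEn P (Fintype.card P) => f.1 u < f.1 v ∧ f.1 v < f.1 t) +
      pb (fun f : LEn P (Fintype.card P) => f.1 u < f.1 t ∧ f.1 t < f.1 v) ≤
      pb (fun f : LEn P (Fintype.card P) => f.1 u < f.1 v) := by
    apply pb_disj
    · intro f hf; exact hf.1
    · intro f hf; exact hf.1.trans hf.2
    · intro f hf hf2; exact absurd (hf.2.trans hf2.2) (lt_irrefl _)
  have s4 := pb_lt_add hn (P := P) huv
  -- the second step
  have s2 : pb (fun f : LEn P (Fintype.card P) => f.1 v < f.1 u) ≤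
      2 * pb (fun f : LEn P (Fintype.card P) => f.1 u < f.1 t ∧ f.1 t < f.1 v) := by
    rcases h.e with he | ⟨s, hvs, hts, hst, h1, h2, h3⟩
    · have e1 : pb (fun f : LEn P (Fintype.card P) => f.1 u < f.1 v ∧ f.1 v < f.1 t) ≤
          pb (fun f : LEn P (Fintype.card P) => f.1 u < f.1 t ∧ f.1 t < f.1 v) := by
        apply pb_swap v t
        · intro f hf
          refine ⟨hf.2, h.vt, fun w hw => ?_, fun w hw => lt_of f (he w hw)⟩
          rcases h.d w hw with rfl | h4
          · exact hf.1
          · exact lt_of f h4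
        · intro f g hf g1 g2 g3
          rw [g1, g2, g3 u huv htu.symm]
          exact hf
      have e2 := pb_nonneg (fun f : LEn P (Fintype.card P) => f.1 u < f.1 t ∧ f.1 t < f.1 v)
      linarith
    · have hst' : s ≠ t := fun h5 => hst h5.le
      have hsu : s ≠ u := fun h5 => h.vu (h5 ▸ hvs).le
      have hsv : s ≠ v := hvs.ne'
      have c1 : pb (fun f : LEn P (Fintype.card P) => f.1 v < f.1 u) ≤
          pb (fun f : LEn P (Fintype.card P) => f.1 v < f.1 u ∧ f.1 t < f.1 s) +
          pb (fun f : LEn P (Fintype.card P) => f.1 v < f.1 u ∧ f.1 s < f.1 t) := by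
        apply pb_cover
        intro f hf
        rcases lt_trichotomy (f.1 t) (f.1 s) with h5 | h5 | h5
        · exact Or.inl ⟨hf, h5⟩
        · exact absurd (f.1.injective h5).symm hst'
        · exact Or.inr ⟨hf, h5⟩
      have c2 : pb (fun f : LEn P (Fintype.card P) => f.1 v < f.1 u ∧ f.1 s < f.1 t) ≤
          pb (fun f : LEn P (Fintype.card P) => f.1 v < f.1 u ∧ f.1 t < f.1 s) := by
        apply pb_swap s t
        · intro f hf
          exact ⟨hf.2, hst, fun w hw => lt_of f (h2 w hw), fun w hw => lt_of f (h3 w hw)⟩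
        · intro f g hf g1 g2 g3
          rw [g1, g2, g3 u hsu.symm htu.symm, g3 v hsv.symm htv.symm]
          exact hf
      have c3 : pb (fun f : LEn P (Fintype.card P) => f.1 v < f.1 u ∧ f.1 t < f.1 s) ≤
          pb (fun f : LEn P (Fintype.card P) => (f.1 u < f.1 v ∧ f.1 v < f.1 t) ∧
            f.1 t < f.1 s) := by
        apply pb_swap v u
        · intro f hf
          exact ⟨hf.1, h.vu, fun w hw => lt_of f (h.a w hw), fun w hw => lt_of f (h.b w hw)⟩
        · intro f g hf g1 g2 g3
          rw [g1, g2, g3 t htv htu, g3 s hsv hsu]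
          exact ⟨⟨hf.1, lt_of f h.ut⟩, hf.2⟩
      have c4 : pb (fun f : LEn P (Fintype.card P) => (f.1 u < f.1 v ∧ f.1 v < f.1 t) ∧
            f.1 t < f.1 s) ≤
          pb (fun f : LEn P (Fintype.card P) => f.1 u < f.1 t ∧ f.1 t < f.1 v) := by
        apply pb_swap v t
        · intro f hf
          refine ⟨hf.1.2, h.vt, fun w hw => ?_, fun w hw => ?_⟩
          · rcases h.d w hw with rfl | h4
            · exact hf.1.1
            · exact lt_of f h4
          · rcases h1 w hw with rfl | h4
            · exact hf.2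
            · exact lt_of f h4
        · intro f g hf g1 g2 g3
          rw [g1, g2, g3 u huv htu.symm]
          exact hf.1
      linarith
  linarith

end Pool.Agent.H3.Her
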