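import Mathlib
import Pool.Agent.H3.Her.Key
import Pool.Graph.R_pool_sql_team_seeded_35f281b4.K7.H20.Cyc
import Pool.Graph.R_pool_sql_team_seeded_64922ed1.X11.DS.Spec

/-! The posets `Zig m`, whose incomparability graphs are paths. -/

set_option autoImplicit false

namespace Pool.Agent.H3.Her

open Pool.Agent.H13R3.WB Pool.Agent.H931R3.Bal Pool.Agent.R636.BG Pool.Agent.X11.DS

/-- The poset with the elements `0, …, m - 1` and `i < j` if and only if `i + 2 ≤ j`. -/
def Zig (m : ℕ) : Type := Fin m

instance (m : ℕ) : Fintype (Zig m) := inferInstanceAs (Fintype (Fin m))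

instance (m : ℕ) : PartialOrder (Zig m) where
  le a b := a = b ∨ Fin.val (n := m) a + 2 ≤ Fin.val (n := m) b
  le_refl a := Or.inl rfl
  le_trans a b c h1 h2 := by
    rcases h1 with rfl | h1
    · exact h2
    · rcases h2 with rfl | h2
      · exact Or.inr h1
      · exact Or.inr (by omega)
  le_antisymm a b h1 h2 := by
    rcases h1 with rfl | h1
    · rfl
    · rcases h2 with h2 | h2
      · exact h2.symm
      · omega

namespace Zig

variable {m : ℕ}

/-- the number of an element -/
def v (a : Zig m) : ℕ := Fin.val (n := m) a

lemma v_lt (a : Zig m) : a.v < m := Fin.isLt (n := m) a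

lemma ext {a b : Zig m} (h : a.v = b.v) : a = b := Fin.ext (n := m) h

/-- the element with a given number -/
def mk (i : ℕ) (h : i < m) : Zig m := (⟨i, h⟩ : Fin m)

@[simp] lemma v_mk (i : ℕ) (h : i < m) : (mk i h : Zig m).v = i := rfl

lemma le_iff (a b : Zig m) : a ≤ b ↔ a = b ∨ a.v + 2 ≤ b.v := Iff.rfl

lemma lt_iff (a b : Zig m) : a < b ↔ a.v + 2 ≤ b.v := by
  rw [lt_iff_le_not_ge, le_iff, le_iff]
  constructor
  · rintro ⟨h1, h2⟩
    rcases h1 with h1 | h1
    · exact absurd (Or.inl h1.symm) h2
    · exact h1
  · intro h
    refine ⟨Or.inr h, ?_⟩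
    rintro (h1 | h1)
    · subst h1; omega
    · omega

lemma inc_iff (a b : Zig m) : Inc a b ↔ a.v + 1 = b.v ∨ b.v + 1 = a.v := by
  unfold Inc
  rw [le_iff, le_iff]
  constructor
  · rintro ⟨h1, h2⟩
    have h3 : a.v ≠ b.v := fun h => h1 (Or.inl (ext h))
    have h4 : ¬ a.v + 2 ≤ b.v := fun h => h1 (Or.inr h)
    have h5 : ¬ b.v + 2 ≤ a.v := fun h => h2 (Or.inr h)
    omega
  · intro h
    refine ⟨?_, ?_⟩
    · rintro (h1 | h1)
      · subst h1; omega
      · omega
    · rintro (h1 | h1)
      · subst h1; omega
      · omega

lemma card : Fintype.card (Zig m) = m := Fintype.card_fin m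

/-- the pair of neighbours in general position -/
lemma loc (i : ℕ) (h : i + 2 < m) : Loc (Zig m) (mk i (by omega)) (mk (i + 1) (by omega))
    (mk (i + 2) h) := by
  refine ⟨?_, ?_, ?_, ?_, ?_, ?_, ?_, ?_, ?_⟩
  · intro w hw
    rw [lt_iff] at hw ⊢
    simp only [v_mk] at *
    omega
  · intro w hw
    rw [lt_iff] at hw ⊢
    simp only [v_mk] at *
    omega
  · rintro (h1 | h1)
    · have := congrArg v h1
      simp only [v_mk] at this
      omega
    · have h2 : i + 2 ≤ i + 1 := h1
      omega
  · rintro (h1 | h1)
    · have := congrArg v h1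
      simp only [v_mk] at this
      omega
    · have h2 : i + 1 + 2 ≤ i := h1
      omega
  · rw [lt_iff]
    simp only [v_mk]
    omega
  · rintro (h1 | h1)
    · have := congrArg v h1
      simp only [v_mk] at this
      omega
    · have h2 : i + 1 + 2 ≤ i + 2 := h1
      omega
  · rintro (h1 | h1)
    · have := congrArg v h1
      simp only [v_mk] at this
      omega
    · have h2 : i + 2 + 2 ≤ i + 1 := h1
      omega
  · intro w hw
    rw [lt_iff] at hw
    simp only [v_mk] at hw
    by_cases hwi : w.v = i
    · exact Or.inl (ext hwi)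
    · right
      rw [lt_iff]
      simp only [v_mk]
      omega
  · by_cases h3 : i + 3 < m
    · right
      refine ⟨mk (i + 3) h3, ?_, ?_, ?_, ?_, ?_, ?_⟩
      · rw [lt_iff]; simp only [v_mk]; omega
      · rintro (h1 | h1)
        · have := congrArg v h1
          simp only [v_mk] at this
          omega
        · have h2 : i + 2 + 2 ≤ i + 3 := h1
          omega
      · rintro (h1 | h1)
        · have := congrArg v h1
          simp only [v_mk] at this
          omega
        · have h2 : i + 3 + 2 ≤ i + 2 := h1
          omega
      · intro w hw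
        rw [lt_iff] at hw
        simp only [v_mk] at hw
        by_cases hwi : w.v = i + 3
        · exact Or.inl (ext hwi)
        · right
          rw [lt_iff]
          simp only [v_mk]
          omega
      · intro w hw
        rw [lt_iff] at hw ⊢
        simp only [v_mk] at *
        omega
      · intro w hw
        rw [lt_iff] at hw ⊢
        simp only [v_mk] at *
        omega
    · left
      intro w hw
      rw [lt_iff] at hw
      simp only [v_mk] at hw
      have := v_lt w
      omega

/-- the order-reversing bijection -/
def rev (m : ℕ) : Zig m ≃o (Zig m)ᵒᵈ where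
  toFun a := OrderDual.toDual (mk (m - 1 - a.v) (by have := v_lt a; omega))
  invFun a := mk (m - 1 - (OrderDual.ofDual a).v) (by have := v_lt (OrderDual.ofDual a); omega)
  left_inv a := by
    apply ext
    have := v_lt a
    simp only [OrderDual.ofDual_toDual, v_mk]
    omega
  right_inv a := by
    apply OrderDual.ofDual.injective
    apply ext
    have := v_lt (OrderDual.ofDual a)
    simp only [OrderDual.ofDual_toDual, v_mk]
    omega
  map_rel_iff' := by
    intro a b
    have ha := v_lt a
    have hb := v_lt b
    simp only [Equiv.coe_fn_mk, OrderDual.toDual_le_toDual]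
    rw [le_iff, le_iff]
    simp only [v_mk]
    constructor
    · rintro (h | h)
      · left
        have := congrArg v h
        simp only [v_mk] at this
        exact ext (by omega)
      · right; omega
    · rintro (h | h)
      · subst h; exact Or.inl rfl
      · right; omega

end Zig

end Pool.Agent.H3.Her
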