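import Mathlib
import Pool.Agent.H3.Her.Zig

/-! The balance constants of the posets `Zig m`, and induced paths. -/

set_option autoImplicit false

namespace Pool.Agent.H3.Her

open Pool.Agent.H13R3.WB Pool.Agent.H931R3.Bal Pool.Agent.R636.BG Pool.Agent.X11.DS

/-- `P` is not a direct sum of two nonempty posets. -/
def Indecomposable (P : Type) [PartialOrder P] : Prop :=
  ¬ ∃ A : Set P, A.Nonempty ∧ Aᶜ.Nonempty ∧ ∀ a ∈ A, ∀ b ∉ A, a < b

namespace Zig

variable {m : ℕ}

lemma prob_le (hm : 3 ≤ m) (i : ℕ) (h : i + 1 < m) :
    prob (Zig m) (mk (i + 1) h) (mk i (by omega)) ≤ 2 / 5 := by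
  by_cases h2 : i + 2 < m
  · exact (loc i h2).le
  · have hi : i = m - 2 := by omega
    have h3 := (loc (m := m) 0 (by omega)).le
    have e := prob_iso (rev m) (mk (0 + 1) (by omega)) (mk 0 (by omega))
    have rv : ∀ a : Zig m, rev m a = OrderDual.toDual (mk (m - 1 - a.v)
        (by have := v_lt a; omega)) := fun a => rfl
    have r1 : rev m (mk (0 + 1) (by omega)) = OrderDual.toDual (mk i (by omega)) := by
      rw [rv]
      congr 1
      apply ext
      simp only [v_mk]
      omega
    have r0 : rev m (mk 0 (by omega)) = OrderDual.toDual (mk (i + 1) h) := by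
      rw [rv]
      congr 1
      apply ext
      simp only [v_mk]
      omega
    rw [r1, r0, Pool.Agent.R636.BG.prob_dual] at e
    rw [← e]
    exact h3

theorem balance_le (hm : 3 ≤ m) : balance (Zig m) ≤ 2 / 5 := by
  rcases bal_cases (P := Zig m) with h | ⟨x, y, hxy, h⟩
  · rw [h]; norm_num
  · rw [h]
    rcases (inc_iff x y).1 hxy with h1 | h1
    · refine (min_le_right _ _).trans ?_
      have hy := v_lt y
      have e1 : y = mk (x.v + 1) (by omega) := ext (by simp only [v_mk]; omega)
      have e2 : x = mk x.v (by omega) := ext (by simp only [v_mk])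
      have h2 := prob_le hm x.v (by omega)
      rw [← e1, ← e2] at h2
      exact h2
    · refine (min_le_left _ _).trans ?_
      have hx := v_lt x
      have e1 : x = mk (y.v + 1) (by omega) := ext (by simp only [v_mk]; omega)
      have e2 : y = mk y.v (by omega) := ext (by simp only [v_mk])
      have h2 := prob_le hm y.v (by omega)
      rw [← e1, ← e2] at h2
      exact h2

theorem indecomposable : Indecomposable (Zig m) := by
  rintro ⟨A, ⟨a, ha⟩, ⟨b, hb⟩, h⟩
  have step : ∀ i : ℕ, ∀ h1 : i + 1 < m,
      (mk i (by omega) : Zig m) ∈ A ↔ (mk (i + 1) h1 : Zig m) ∈ A := by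
    intro i h1
    constructor
    · intro h2
      by_contra h3
      have h4 := h _ h2 _ h3
      rw [lt_iff] at h4
      simp only [v_mk] at h4
      omega
    · intro h2
      by_contra h3
      have h4 := h _ h2 _ h3
      rw [lt_iff] at h4
      simp only [v_mk] at h4
      omega
  have all : ∀ i : ℕ, ∀ h1 : i < m, ((mk i h1 : Zig m) ∈ A ↔ (mk 0 (by omega) : Zig m) ∈ A) := by
    intro i
    induction i with
    | zero => intro h1; exact Iff.rfl
    | succ i ih =>
      intro h1
      rw [← step i h1]
      exact ih (by omega)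
  have h1 := (all a.v (v_lt a)).1 (by
    have : (mk a.v (v_lt a) : Zig m) = a := ext rfl
    rw [this]; exact ha)
  have h2 := (all b.v (v_lt b)).2 h1
  have h3 : (mk b.v (v_lt b) : Zig m) = b := ext rfl
  rw [h3] at h2
  exact hb h2

/-- the probability that the elements `1`, `0` are inverted in `Zig (m + 2)` -/
noncomputable def q (m : ℕ) : ℝ := prob (Zig (m + 2)) (mk 1 (by omega)) (mk 0 (by omega))

end Zig

/-- The ends have the largest probability of an inversion. -/
def S_refl : Prop := ∀ (m i : ℕ) (h : i + 1 < m + 2),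
  prob (Zig (m + 2)) (Zig.mk (i + 1) h) (Zig.mk i (by omega)) ≤ Zig.q m

/-- The recursion. -/
def S_rec : Prop := ∀ m : ℕ, Zig.q (m + 1) = (1 - Zig.q (m + 1)) * (1 - Zig.q m)

/-- an induced path in the incomparability graph gives a copy of `Zig m` -/
theorem embed_of_path {P : Type} [PartialOrder P] {m : ℕ} (p : Fin m → P)
    (hinj : Function.Injective p)
    (h : ∀ i j : Fin m, Inc (p i) (p j) ↔ ((i : ℕ) + 1 = j ∨ (j : ℕ) + 1 = i)) :
    Nonempty (Zig m ↪o P) := by
  classical
  by_cases hm : m < 3
  · -- small cases
    refine ⟨⟨⟨fun a => p (a : Fin m), hinj⟩, ?_⟩⟩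
    intro a b
    have ha := Zig.v_lt a
    have hb := Zig.v_lt b
    constructor
    · intro hab
      have hab' : p (a : Fin m) ≤ p (b : Fin m) := hab
      by_contra hcon
      rw [Zig.le_iff] at hcon
      push Not at hcon
      have hne : a.v ≠ b.v := fun h1 => hcon.1 (Zig.ext h1)
      have := (h (a : Fin m) (b : Fin m)).2 (by
        change a.v + 1 = b.v ∨ b.v + 1 = a.v
        omega)
      exact this.1 hab'
    · intro hab
      rcases hab with rfl | hab
      · exact le_rfl
      · have hab' : a.v + 2 ≤ b.v := hab
        omega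
  · push Not at hm
    -- comparability of all pairs at distance at least two
    have cmp : ∀ i j : ℕ, ∀ hi : i < m, ∀ hj : j < m, i + 2 ≤ j →
        p ⟨i, hi⟩ < p ⟨j, hj⟩ ∨ p ⟨j, hj⟩ < p ⟨i, hi⟩ := by
      intro i j hi hj hij
      have hne : p ⟨i, hi⟩ ≠ p ⟨j, hj⟩ := by
        intro h1
        have := hinj h1
        simp only [Fin.mk.injEq] at this
        omega
      have hni : ¬ Inc (p ⟨i, hi⟩) (p ⟨j, hj⟩) := by
        rw [h]
        simp only
        omega
      unfold Inc at hni
      by_cases h1 : p ⟨i, hi⟩ ≤ p ⟨j, hj⟩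
      · exact Or.inl (lt_of_le_of_ne h1 hne)
      · right
        by_contra h2
        exact hni ⟨h1, fun h3 => h2 (lt_of_le_of_ne h3 hne.symm)⟩
    have nadj : ∀ i : ℕ, ∀ hi : i + 1 < m, Inc (p ⟨i, by omega⟩) (p ⟨i + 1, hi⟩) := by
      intro i hi
      rw [h]
      simp
    -- general statement for a strict order
    have main : ∀ (R : P → P → Prop), (∀ a b c, R a b → R b c → R a c) →
        (∀ a b, R a b → ¬ Inc a b) → (∀ a b, R a b → ¬ R b a) →
        (∀ i j : ℕ, ∀ hi : i < m, ∀ hj : j < m, i + 2 ≤ j →
          R (p ⟨i, hi⟩) (p ⟨j, hj⟩) ∨ R (p ⟨j, hj⟩) (p ⟨i, hi⟩)) →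
        R (p ⟨0, by omega⟩) (p ⟨2, by omega⟩) →
        ∀ i j : ℕ, ∀ hi : i < m, ∀ hj : j < m, i + 2 ≤ j → R (p ⟨i, hi⟩) (p ⟨j, hj⟩) := by
      intro R htr hinc hasy hcmp h0
      have hinc' : ∀ i : ℕ, ∀ hi : i + 1 < m, ¬ R (p ⟨i, by omega⟩) (p ⟨i + 1, hi⟩) ∧
          ¬ R (p ⟨i + 1, hi⟩) (p ⟨i, by omega⟩) := fun i hi =>
        ⟨fun h1 => hinc _ _ h1 (nadj i hi), fun h1 => hinc _ _ h1 (nadj i hi).symm⟩
      have two : ∀ i : ℕ, ∀ hi : i + 2 < m, R (p ⟨i, by omega⟩) (p ⟨i + 2, hi⟩) := by
        intro i
        induction i with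
        | zero => intro hi; exact h0
        | succ i ih =>
          intro hi
          have h1 := ih (by omega)
          rcases hcmp (i + 1) (i + 1 + 2) (by omega) hi (by omega) with h2 | h2
          · exact h2
          · exfalso
            -- `x_{i+3} < x_{i+1}`
            rcases hcmp i (i + 1 + 2) (by omega) hi (by omega) with h3 | h3
            · exact (hinc' i (by omega)).1 (htr _ _ _ h3 h2)
            · exact (hinc' (i + 2) (by omega)).2 (htr _ _ _ h3 h1)
      intro i j hi hj hij
      rcases hcmp i j hi hj hij with h1 | h1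
      · exact h1
      · exfalso
        -- descend from `j`
        have desc : ∀ k : ℕ, ∀ j : ℕ, ∀ hj : j < m, i + 2 ≤ j → j ≤ i + 2 + k →
            ¬ R (p ⟨j, hj⟩) (p ⟨i, hi⟩) := by
          intro k
          induction k with
          | zero =>
            intro j hj h1 h2 h3
            obtain rfl : j = i + 2 := by omega
            exact hasy _ _ h3 (two i hj)
          | succ k ih =>
            intro j hj h1 h2 h3
            by_cases h4 : j ≤ i + 2 + k
            · exact ih j hj h1 h4 h3
            · obtain rfl : j = i + 2 + (k + 1) := by omega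
              have h5 : R (p ⟨i + 1 + k, by omega⟩) (p ⟨i, hi⟩) := by
                have h6 := two (i + 1 + k) (by omega)
                have h7 : (⟨i + 1 + k + 2, by omega⟩ : Fin m) = ⟨i + 2 + (k + 1), hj⟩ := by
                  apply Fin.ext
                  simp only
                  omega
                rw [h7] at h6
                exact htr _ _ _ h6 h3
              rcases Nat.eq_zero_or_pos k with hk | hk
              · subst hk
                exact (hinc' i (by omega)).2 h5
              · exact ih (i + 1 + k) (by omega) (by omega) (by omega) h5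
        exact desc (j - (i + 2)) j hj hij (by omega) h1
    rcases cmp 0 2 (by omega) (by omega) (by omega) with h0 | h0
    · have h1 := main (fun a b => a < b) (fun a b c => lt_trans)
        (fun a b hab hi => hi.1 hab.le) (fun a b hab => lt_asymm hab) cmp h0
      refine ⟨⟨⟨fun a => p (a : Fin m), hinj⟩, ?_⟩⟩
      intro a b
      constructor
      · intro hab
        have hab' : p (a : Fin m) ≤ p (b : Fin m) := hab
        by_contra hcon
        rw [Zig.le_iff] at hcon
        push Not at hcon
        have hne : a.v ≠ b.v := fun h2 => hcon.1 (Zig.ext h2)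
        by_cases h3 : b.v + 2 ≤ a.v
        · exact absurd (h1 b.v a.v (Zig.v_lt b) (Zig.v_lt a) h3) (not_lt_of_ge hab')
        · have := (h (a : Fin m) (b : Fin m)).2 (by
            change a.v + 1 = b.v ∨ b.v + 1 = a.v
            omega)
          exact this.1 hab'
      · intro hab
        rcases hab with rfl | hab
        · exact le_rfl
        · exact (h1 a.v b.v (Zig.v_lt a) (Zig.v_lt b) hab).le
    · have h1 := main (fun a b => b < a) (fun a b c hab hbc => hbc.trans hab)
        (fun a b hab hi => hi.2 hab.le) (fun a b hab => lt_asymm hab)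
        (fun i j hi hj hij => (cmp i j hi hj hij).symm) h0
      -- reverse the path
      refine ⟨⟨⟨fun a => p ⟨m - 1 - a.v, by have := Zig.v_lt a; omega⟩, ?_⟩, ?_⟩⟩
      · intro a b hab
        have h2 := hinj hab
        simp only [Fin.mk.injEq] at h2
        have ha := Zig.v_lt a
        have hb := Zig.v_lt b
        exact Zig.ext (by omega)
      · intro a b
        have ha := Zig.v_lt a
        have hb := Zig.v_lt b
        constructor
        · intro hab
          have hab' : p ⟨m - 1 - a.v, by omega⟩ ≤ p ⟨m - 1 - b.v, by omega⟩ := hab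
          by_contra hcon
          rw [Zig.le_iff] at hcon
          push Not at hcon
          have hne : a.v ≠ b.v := fun h2 => hcon.1 (Zig.ext h2)
          by_cases h3 : b.v + 2 ≤ a.v
          · exact absurd (h1 (m - 1 - a.v) (m - 1 - b.v) (by omega) (by omega) (by omega))
              (not_lt_of_ge hab')
          · have := (h ⟨m - 1 - a.v, by omega⟩ ⟨m - 1 - b.v, by omega⟩).2 (by
              simp only
              omega)
            exact this.1 hab'
        · intro hab
          rcases hab with rfl | hab
          · exact le_rfl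
          · have hab' : a.v + 2 ≤ b.v := hab
            exact (h1 (m - 1 - b.v) (m - 1 - a.v) (by omega) (by omega) (by omega)).le

end Pool.Agent.H3.Her
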