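import Mathlib
import Pool.Agent.H3.Her.Zig2

/-! Hereditary classes: the positive direction, and forests. -/

set_option autoImplicit false

namespace Pool.Agent.H3.Her

open Pool.Agent.H13R3.WB Pool.Agent.H931R3.Bal Pool.Agent.R636.BG Pool.Agent.X11.DS

/-- The class contains every subposet of its members, and every isomorphic copy. -/
def Hereditary (C : ∀ (P : Type) [PartialOrder P], Prop) : Prop :=
  ∀ (P Q : Type) [PartialOrder P] [PartialOrder Q], C P → Nonempty (Q ↪o P) → C Q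

/-- an indecomposable poset has a connected incomparability graph -/
theorem Indecomposable.conn {P : Type} [PartialOrder P] (h : Indecomposable P) (x y : P) :
    Relation.ReflTransGen Inc x y := by
  by_contra hy
  apply h
  have hy' : y ∉ comp x := hy
  have hx := self_mem_comp x
  have auto : ∀ a ∈ comp x, ∀ z ∉ comp x, (z ≤ x → z ≤ a) ∧ (x ≤ z → a ≤ z) := fun a ha z hz =>
    comp_auto x x hx a ha z hz
  have cmp : ∀ z ∉ comp x, z < x ∨ x < z := by
    intro z hz
    have hne : z ≠ x := fun h1 => hz (h1 ▸ hx)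
    by_cases h1 : z ≤ x
    · exact Or.inl (lt_of_le_of_ne h1 hne)
    · by_cases h2 : x ≤ z
      · exact Or.inr (lt_of_le_of_ne h2 hne.symm)
      · exact absurd (comp_step hx (⟨h2, h1⟩ : Inc x z)) hz
  by_cases hU : ∃ z, z ∉ comp x ∧ x < z
  · obtain ⟨z, hz, hxz⟩ := hU
    refine ⟨{a | ¬ (a ∉ comp x ∧ x < a)}, ⟨x, fun h1 => h1.1 hx⟩, ⟨z, fun h1 => h1 ⟨hz, hxz⟩⟩, ?_⟩
    intro a ha b hb
    have hb' : b ∉ comp x ∧ x < b := not_not.1 hb
    by_cases hac : a ∈ comp x
    · exact lt_of_le_of_ne ((auto a hac b hb'.1).2 hb'.2.le) (fun h1 => hb'.1 (h1 ▸ hac))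
    · rcases cmp a hac with h1 | h1
      · exact h1.trans hb'.2
      · exact absurd ⟨hac, h1⟩ ha
  · have hyx : y < x := by
      rcases cmp y hy' with h1 | h1
      · exact h1
      · exact absurd ⟨y, hy', h1⟩ hU
    refine ⟨{a | a ∉ comp x ∧ a < x}, ⟨y, hy', hyx⟩, ⟨x, fun h1 => lt_irrefl x h1.2⟩, ?_⟩
    intro a ha b hb
    by_cases hbc : b ∈ comp x
    · exact lt_of_le_of_ne ((auto b hbc a ha.1).1 ha.2.le) (fun h1 => ha.1 (h1 ▸ hbc))
    · exfalso
      rcases cmp b hbc with h1 | h1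
      · exact hb ⟨hbc, h1⟩
      · exact hU ⟨b, hbc, h1⟩

/-- inclusion of `Zig m` in a larger one -/
def Zig.incl {m n : ℕ} (h : m ≤ n) : Zig m ↪o Zig n where
  toFun a := Zig.mk a.v ((Zig.v_lt a).trans_le h)
  inj' a b hab := by
    have := congrArg Zig.v hab
    simp only [Zig.v_mk] at this
    exact Zig.ext this
  map_rel_iff' := by
    intro a b
    simp only [Function.Embedding.coeFn_mk]
    rw [Zig.le_iff, Zig.le_iff]
    simp only [Zig.v_mk]
    constructor
    · rintro (h1 | h1)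
      · have := congrArg Zig.v h1
        simp only [Zig.v_mk] at this
        exact Or.inl (Zig.ext this)
      · exact Or.inr h1
    · rintro (h1 | h1)
      · subst h1; exact Or.inl rfl
      · exact Or.inr h1

theorem diam_of_omit {C : ∀ (P : Type) [PartialOrder P], Prop} (hC : Hereditary C) {m : ℕ}
    (hm : ¬ C (Zig m)) (P : Type) [PartialOrder P] (hP : C P) : DiamLe m P := by
  apply diamLe_of_noInducedPath
  rintro ⟨p, hinj, hp⟩
  obtain ⟨e⟩ := embed_of_path p hinj hp
  exact hm (hC _ _ (hC _ _ hP ⟨e⟩) ⟨Zig.incl (by omega)⟩)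

/-- the number of elements in terms of `ε` -/
noncomputable def KK (B ε : ℝ) : ℕ := ⌈Real.exp (B * Real.log (2 / ε) ^ 3 / ε ^ 4)⌉₊

/-- the property of `B` -/
def Good (B : ℝ) : Prop := ∀ ε : ℝ, 0 < ε → ε ≤ 1 / 2 → Thin ε (KK B ε)

theorem size_bound {B : ℝ} (h : Good B) {C : ∀ (P : Type) [PartialOrder P], Prop}
    (hC : Hereditary C) {m : ℕ} (hm : ¬ C (Zig m)) {ε : ℝ} (h1 : 0 < ε) (h2 : ε ≤ 1 / 2)
    (P : Type) [Fintype P] [PartialOrder P] (hP : C P) (hI : Indecomposable P)
    (hcard : KK B ε ^ m < Fintype.card P) : 1 / 2 - ε ≤ balance P := by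
  classical
  by_contra hcon
  rw [not_le] at hcon
  have hne : Nonempty P := Fintype.card_pos_iff.1 (lt_of_le_of_lt (Nat.zero_le _) hcard)
  obtain ⟨x⟩ := hne
  have h3 := card_comp (h ε h1 h2) (diam_of_omit hC hm P hP) hcon x
  have h4 : Fintype.card (comp x) = Fintype.card P :=
    Fintype.card_congr (Equiv.subtypeUnivEquiv (fun y => hI.conn x y))
  rw [h4] at h3
  omega

theorem exists_good : ∃ B : ℝ, 0 < B ∧ Good B := exists_thin

theorem spectrum {C : ∀ (P : Type) [PartialOrder P], Prop} (hC : Hereditary C) {m : ℕ}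
    (hm : ¬ C (Zig m)) (c : ℝ) (hc : c < 1 / 2) :
    {v : ℝ | v ≤ c ∧ ∃ (P : Type) (_ : Fintype P) (_ : PartialOrder P), C P ∧
      balance P = v}.Finite := by
  refine (finite_spectrum m c hc).subset ?_
  rintro v ⟨h1, P, h2, h3, h4, h5⟩
  exact ⟨h1, P, h2, h3, diam_of_omit hC hm P h4, h5⟩

/-- finitely many values below `1/2` leave a gap above every number -/
theorem gap_above {S : Set ℝ} (h : ∀ c : ℝ, c < 1 / 2 → {v : ℝ | v ≤ c ∧ v ∈ S}.Finite) (c : ℝ)
    (hc : c < 1 / 2) : ∃ ε : ℝ, 0 < ε ∧ ∀ v ∈ S, v ≤ c ∨ c + ε ≤ v := by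
  set c' : ℝ := (c + 1 / 2) / 2 with hc'
  have h1 : c < c' := by rw [hc']; linarith
  have h2 : c' < 1 / 2 := by rw [hc']; linarith
  have hfin : ({v : ℝ | (v ≤ c' ∧ v ∈ S) ∧ c < v}).Finite := (h c' h2).subset (fun v hv => hv.1)
  by_cases hne : ({v : ℝ | (v ≤ c' ∧ v ∈ S) ∧ c < v}).Nonempty
  · obtain ⟨m, hm, hmin⟩ := Set.exists_min_image _ id hfin hne
    have hmc : c < m := hm.2
    refine ⟨min (m - c) (c' - c), lt_min (by linarith) (by linarith), fun v hv => ?_⟩
    by_cases h3 : v ≤ c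
    · exact Or.inl h3
    · right
      push Not at h3
      by_cases h4 : v ≤ c'
      · have h5 : m ≤ v := hmin v ⟨⟨h4, hv⟩, h3⟩
        have := min_le_left (m - c) (c' - c)
        linarith
      · have := min_le_right (m - c) (c' - c)
        linarith
  · refine ⟨c' - c, by linarith, fun v hv => ?_⟩
    by_cases h3 : v ≤ c
    · exact Or.inl h3
    · right
      by_contra h4
      exact hne ⟨v, ⟨by linarith, hv⟩, by linarith⟩

theorem bal_le_half (P : Type) [Fintype P] [PartialOrder P] : balance P ≤ 1 / 2 := by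
  rcases bal_cases (P := P) with h | ⟨x, y, hxy, h⟩
  · rw [h]; norm_num
  · rw [h]
    have h1 : prob P x y + prob P y x = 1 := prob_add hxy.ne
    rcases le_total (prob P x y) (prob P y x) with h2 | h2
    · rw [min_eq_left h2]; linarith
    · rw [min_eq_right h2]; linarith

/-- the infimum of the values is attained -/
theorem attained {S : Set ℝ} (h : ∀ c : ℝ, c < 1 / 2 → {v : ℝ | v ≤ c ∧ v ∈ S}.Finite)
    (h2 : ∀ v ∈ S, v ≤ 1 / 2) (hne : S.Nonempty) : ∃ v, IsLeast S v := by
  by_cases h3 : ∃ v ∈ S, v < 1 / 2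
  · obtain ⟨v, hv, hv2⟩ := h3
    obtain ⟨m, hm, hmin⟩ := Set.exists_min_image _ id (h v hv2) ⟨v, le_rfl, hv⟩
    refine ⟨m, hm.2, fun w hw => ?_⟩
    by_cases h4 : w ≤ v
    · exact hmin w ⟨h4, hw⟩
    · exact hm.1.trans (not_le.1 h4).le
  · push Not at h3
    obtain ⟨v, hv⟩ := hne
    exact ⟨v, hv, fun w hw => (h2 v hv).trans (h3 w hw)⟩

/-! ### forests -/

/-- no diamond: elements between two given elements form a chain -/
def DiamondFree (P : Type) [PartialOrder P] : Prop :=
  ∀ a x y b : P, a ≤ x → a ≤ y → x ≤ b → y ≤ b → x ≤ y ∨ y ≤ x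

lemma ex_cov {P : Type} [PartialOrder P] [Finite P] {x y : P} (h : x < y) :
    ∃ z, x ⋖ z ∧ z ≤ y := by
  have := Fintype.ofFinite P
  obtain ⟨z, h1, h2⟩ := exists_covBy_le_of_lt h
  exact ⟨z, h1, h2⟩

theorem ex_mono {P : Type} [PartialOrder P] [Finite P] (b : P) : ∀ a : P, a ≤ b →
    ∃ p : (SimpleGraph.hasse P).Walk a b, p.support.Pairwise (· < ·) ∧
      ∀ w ∈ p.support, a ≤ w ∧ w ≤ b := by
  have wf : WellFounded ((· > ·) : P → P → Prop) := Finite.wellFounded_of_trans_of_irrefl _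
  intro a
  induction a using wf.induction with
  | _ a ih =>
    intro h
    rcases h.eq_or_lt with h1 | h1
    · subst h1
      exact ⟨SimpleGraph.Walk.nil, by simp, by simp⟩
    · obtain ⟨z, h2, h3⟩ := ex_cov h1
      obtain ⟨p, hp1, hp2⟩ := ih z h2.lt h3
      have h4 : (SimpleGraph.hasse P).Adj a z := Or.inl h2
      refine ⟨SimpleGraph.Walk.cons h4 p, ?_, ?_⟩
      · rw [SimpleGraph.Walk.support_cons, List.pairwise_cons]
        exact ⟨fun w hw => h2.lt.trans_le (hp2 w hw).1, hp1⟩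
      · intro w hw
        rw [SimpleGraph.Walk.support_cons, List.mem_cons] at hw
        rcases hw with rfl | hw
        · exact ⟨le_rfl, h⟩
        · exact ⟨h2.le.trans (hp2 w hw).1, (hp2 w hw).2⟩

theorem path_of_mono {P : Type} [PartialOrder P] {a b : P}
    {p : (SimpleGraph.hasse P).Walk a b} (h : p.support.Pairwise (· < ·)) : p.IsPath := by
  rw [SimpleGraph.Walk.isPath_def]
  exact h.imp (fun h => h.ne)

/-- a poset whose cover graph is a forest is diamond-free -/
theorem diamondFree_of_acyclic {P : Type} [PartialOrder P] [Finite P]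
    (h : (SimpleGraph.hasse P).IsAcyclic) : DiamondFree P := by
  intro a x y b hax hay hxb hyb
  obtain ⟨p, hp1, hp2⟩ := ex_mono b a (hax.trans hxb)
  have key : ∀ z, a ≤ z → z ≤ b → z ∈ p.support := by
    intro z h1 h2
    obtain ⟨p1, q1, r1⟩ := ex_mono z a h1
    obtain ⟨p2, q2, r2⟩ := ex_mono b z h2
    have h3 : (p1.append p2).support.Pairwise (· < ·) := by
      rw [SimpleGraph.Walk.support_append, List.pairwise_append]
      have h4 : (z :: p2.support.tail).Pairwise (· < ·) := by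
        rw [SimpleGraph.Walk.cons_tail_support]
        exact q2
      rw [List.pairwise_cons] at h4
      exact ⟨q1, h4.2, fun u hu w hw => (r1 u hu).2.trans_lt (h4.1 w hw)⟩
    have h5 := (h.subsingleton_path a b).elim ⟨p, path_of_mono hp1⟩
      ⟨p1.append p2, path_of_mono h3⟩
    have h6 : p = p1.append p2 := congrArg Subtype.val h5
    rw [h6, SimpleGraph.Walk.mem_support_append_iff]
    exact Or.inl p1.end_mem_support
  have hx := key x hax hxb
  have hy := key y hay hyb
  have h7 : p.support.Pairwise (fun u w => u ≤ w ∨ w ≤ u) := hp1.imp (fun h => Or.inl h.le)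
  have : Std.Symm (fun u w : P => u ≤ w ∨ w ≤ u) := ⟨fun u w huw => huw.symm⟩
  exact List.Pairwise.forall_of_forall (R := fun u w : P => u ≤ w ∨ w ≤ u)
    (fun u _ => Or.inl le_rfl) h7 hx hy

theorem DiamondFree.hereditary : Hereditary (fun P _ => DiamondFree P) := by
  intro P Q _ _ h ⟨e⟩ a x y b h1 h2 h3 h4
  rcases h (e a) (e x) (e y) (e b) (e.monotone h1) (e.monotone h2) (e.monotone h3)
    (e.monotone h4) with h5 | h5
  · exact Or.inl (e.le_iff_le.1 h5)
  · exact Or.inr (e.le_iff_le.1 h5)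

theorem not_diamondFree_zig : ¬ DiamondFree (Zig 6) := by
  intro h
  have h1 := h (Zig.mk 0 (by omega)) (Zig.mk 2 (by omega)) (Zig.mk 3 (by omega))
    (Zig.mk 5 (by omega)) (Or.inr (by decide)) (Or.inr (by decide)) (Or.inr (by decide))
    (Or.inr (by decide))
  have h2 := (Zig.inc_iff (m := 6) (Zig.mk 2 (by omega)) (Zig.mk 3 (by omega))).2 (by simp)
  rcases h1 with h1 | h1
  · exact h2.1 h1
  · exact h2.2 h1

end Pool.Agent.H3.Her
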