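import Mathlib
import Pool.Agent.H3.Her.Zig2

/-! In a zigzag poset the end pair is inverted most often. -/

set_option autoImplicit false

namespace Pool.Agent.H3.Her

open Pool.Agent.H13R3.WB Pool.Agent.H931R3.Bal Pool.Agent.R636.BG Pool.Agent.X11.DS

/-- the reflection of the initial segment `0, …, i + 1` -/
def flp (i k : ℕ) : ℕ := if k ≤ i + 1 then i + 1 - k else k

lemma flp_flp (i k : ℕ) : flp i (flp i k) = k := by
  unfold flp
  split_ifs <;> omega

lemma flp_lt {N i k : ℕ} (hi : i + 1 < N) (hk : k < N) : flp i k < N := by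
  unfold flp
  split_ifs <;> omega

lemma flp_le {i k : ℕ} (hk : k ≤ i + 1) : flp i k = i + 1 - k := by
  unfold flp
  rw [if_pos hk]

lemma flp_gt {i k : ℕ} (hk : i + 2 ≤ k) : flp i k = k := by
  unfold flp
  rw [if_neg (by omega)]

/-- the reflection of the elements -/
def flpR {N i : ℕ} (hi : i + 1 < N) : Equiv.Perm (Zig N) :=
  Function.Involutive.toPerm (fun x => Zig.mk (flp i x.v) (flp_lt hi x.v_lt))
    (fun x => Zig.ext (by simp only [Zig.v_mk, flp_flp]))

/-- the reflection of the values -/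
def flpS {N i : ℕ} (hi : i + 1 < N) : Equiv.Perm (Fin N) :=
  Function.Involutive.toPerm (fun x => ⟨flp i x.1, flp_lt hi x.2⟩)
    (fun x => Fin.ext (by simp only [flp_flp]))

lemma v_flpR {N i : ℕ} (hi : i + 1 < N) (x : Zig N) : (flpR hi x).v = flp i x.v := rfl

lemma val_flpS {N i : ℕ} (hi : i + 1 < N) (x : Fin N) : (flpS hi x).1 = flp i x.1 := rfl

section

variable {N i : ℕ} (hi : i + 1 < N) (f : LEn (Zig N) N)

/-- the new bijection -/
def flpE : Zig N ≃ Fin N := ((flpR hi).trans f.1).trans (flpS hi)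

lemma flpE_val (x : Zig N) : (flpE hi f x).1 = flp i (f.1 (flpR hi x)).1 := rfl

lemma lt_of_v {a b : Zig N} (h : a.v + 2 ≤ b.v) : (f.1 a).1 < (f.1 b).1 := by
  have h1 : a < b := (Zig.lt_iff a b).2 h
  exact lt_of_le_of_ne (f.2 h1.le) (fun h2 => h1.ne (f.1.injective (Fin.ext h2)))

variable (hf : f.1 (Zig.mk (i + 1) hi) < f.1 (Zig.mk i (by omega)))

include hf

lemma seg_lt {a b : Zig N} (ha : a.v ≤ i + 1) (hb : i + 2 ≤ b.v) : (f.1 a).1 < (f.1 b).1 := by
  have hf' : (f.1 (Zig.mk (i + 1) hi)).1 < (f.1 (Zig.mk i (by omega))).1 := hf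
  have h1 : (f.1 (Zig.mk i (by omega))).1 < (f.1 b).1 :=
    lt_of_v f (by simp only [Zig.v_mk]; exact hb)
  by_cases h2 : a.v = i
  · have h3 : a = Zig.mk i (by omega) := Zig.ext h2
    rw [h3]
    exact h1
  · by_cases h4 : a.v = i + 1
    · have h3 : a = Zig.mk (i + 1) hi := Zig.ext h4
      rw [h3]
      omega
    · have h5 : (f.1 a).1 < (f.1 (Zig.mk (i + 1) hi)).1 :=
        lt_of_v f (by simp only [Zig.v_mk]; omega)
      omega

lemma seg_le {a : Zig N} (ha : a.v ≤ i + 1) : (f.1 a).1 ≤ i + 1 := by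
  have hN := (f.1 a).2
  have key : ∀ t : Fin ((f.1 a).1 + 1), (f.1.symm ⟨t.1, by omega⟩).v < i + 2 := by
    intro t
    by_contra hcon
    push Not at hcon
    have h1 := seg_lt hi f hf ha hcon
    rw [Equiv.apply_symm_apply] at h1
    simp only at h1
    omega
  have h2 := Fintype.card_le_of_injective
    (fun t : Fin ((f.1 a).1 + 1) => (⟨(f.1.symm ⟨t.1, by omega⟩).v, key t⟩ : Fin (i + 2))) (by
      intro t t' h
      have h3 := Zig.ext (Fin.mk.inj h)
      have h4 := f.1.symm.injective h3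
      exact Fin.ext (Fin.mk.inj h4))
  rw [Fintype.card_fin, Fintype.card_fin] at h2
  omega

lemma seg_ge {b : Zig N} (hb : i + 2 ≤ b.v) : i + 2 ≤ (f.1 b).1 := by
  have key : ∀ t : Fin (i + 2), (f.1 (Zig.mk t.1 (by omega))).1 < (f.1 b).1 := fun t =>
    seg_lt hi f hf (by simp only [Zig.v_mk]; omega) hb
  have h2 := Fintype.card_le_of_injective
    (fun t : Fin (i + 2) => (⟨(f.1 (Zig.mk t.1 (by omega))).1, key t⟩ : Fin (f.1 b).1)) (by
      intro t t' h
      have h3 := f.1.injective (Fin.ext (Fin.mk.inj h))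
      have h4 := congrArg Zig.v h3
      exact Fin.ext h4)
  rw [Fintype.card_fin, Fintype.card_fin] at h2
  exact h2

lemma flpE_mono : Monotone (flpE hi f) := by
  intro a b hab
  rcases hab with rfl | hab
  · exact le_rfl
  have hab' : a.v + 2 ≤ b.v := hab
  show (flpE hi f a).1 ≤ (flpE hi f b).1
  rw [flpE_val, flpE_val]
  by_cases hb : b.v ≤ i + 1
  · have e1 : (flpR hi a).v = i + 1 - a.v := by rw [v_flpR, flp_le (by omega)]
    have e2 : (flpR hi b).v = i + 1 - b.v := by rw [v_flpR, flp_le hb]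
    have h1 : (f.1 (flpR hi b)).1 < (f.1 (flpR hi a)).1 := lt_of_v f (by omega)
    have h2 : (f.1 (flpR hi a)).1 ≤ i + 1 := seg_le hi f hf (by omega)
    have h3 : (f.1 (flpR hi b)).1 ≤ i + 1 := seg_le hi f hf (by omega)
    rw [flp_le h2, flp_le h3]
    omega
  · push Not at hb
    have e2 : (flpR hi b).v = b.v := by rw [v_flpR, flp_gt (by omega)]
    have h3 : i + 2 ≤ (f.1 (flpR hi b)).1 := seg_ge hi f hf (by omega)
    rw [flp_gt h3]
    by_cases ha : a.v ≤ i + 1
    · have e1 : (flpR hi a).v = i + 1 - a.v := by rw [v_flpR, flp_le (by omega)]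
      have h2 : (f.1 (flpR hi a)).1 ≤ i + 1 := seg_le hi f hf (by omega)
      rw [flp_le h2]
      omega
    · push Not at ha
      have e1 : (flpR hi a).v = a.v := by rw [v_flpR, flp_gt (by omega)]
      have h2 : i + 2 ≤ (f.1 (flpR hi a)).1 := seg_ge hi f hf (by omega)
      rw [flp_gt h2]
      have h4 : (f.1 (flpR hi a)).1 < (f.1 (flpR hi b)).1 := lt_of_v f (by omega)
      exact h4.le

lemma flpE_lt : flpE hi f (Zig.mk 1 (by omega)) < flpE hi f (Zig.mk 0 (by omega)) := by
  show (flpE hi f (Zig.mk 1 (by omega))).1 < (flpE hi f (Zig.mk 0 (by omega))).1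
  rw [flpE_val, flpE_val]
  have e1 : flpR hi (Zig.mk 1 (by omega)) = Zig.mk i (by omega) := by
    apply Zig.ext
    rw [v_flpR, Zig.v_mk, flp_le (by omega), Zig.v_mk]
    omega
  have e0 : flpR hi (Zig.mk 0 (by omega)) = Zig.mk (i + 1) hi := by
    apply Zig.ext
    rw [v_flpR, Zig.v_mk, flp_le (by omega), Zig.v_mk]
    omega
  rw [e1, e0]
  have h1 : (f.1 (Zig.mk i (by omega))).1 ≤ i + 1 :=
    seg_le hi f hf (by simp only [Zig.v_mk]; omega)
  have h2 : (f.1 (Zig.mk (i + 1) hi)).1 ≤ i + 1 :=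
    seg_le hi f hf (by simp only [Zig.v_mk]; omega)
  have hf' : (f.1 (Zig.mk (i + 1) hi)).1 < (f.1 (Zig.mk i (by omega))).1 := hf
  rw [flp_le h1, flp_le h2]
  omega

end

lemma flpE_inj {N i : ℕ} (hi : i + 1 < N) (f g : LEn (Zig N) N) (h : flpE hi f = flpE hi g) :
    f = g := by
  apply Subtype.ext
  apply Equiv.ext
  intro x
  have h1 := congrArg (fun e : Zig N ≃ Fin N => e ((flpR hi).symm x)) h
  simp only [flpE, Equiv.trans_apply, Equiv.apply_symm_apply] at h1
  exact (flpS hi).injective h1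

/-- the end pair is inverted most often -/
theorem refl : S_refl := by
  classical
  intro m i hi
  have hn : Fintype.card (Zig (m + 2)) = m + 2 := Zig.card
  unfold Zig.q
  rw [prob_pb hn, prob_pb hn]
  unfold pb
  refine div_le_div_of_nonneg_right ?_ (Nat.cast_nonneg _)
  rw [Nat.cast_le, ct_eq, ct_eq]
  refine Finset.card_le_card_of_injOn (fun f => if hf : f.1 (Zig.mk (i + 1) hi) <
    f.1 (Zig.mk i (by omega)) then (⟨flpE hi f, flpE_mono hi f hf⟩ : LEn (Zig (m + 2)) (m + 2))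
      else f) ?_ ?_
  · intro f hf
    rw [Finset.mem_coe, Finset.mem_filter] at hf
    simp only
    rw [dif_pos hf.2, Finset.mem_coe, Finset.mem_filter]
    exact ⟨Finset.mem_univ _, flpE_lt hi f hf.2⟩
  · intro f hf g hg hfg
    rw [Finset.mem_coe, Finset.mem_filter] at hf hg
    simp only at hfg
    rw [dif_pos hf.2, dif_pos hg.2] at hfg
    exact flpE_inj hi f g (congrArg Subtype.val hfg)

end Pool.Agent.H3.Her
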