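import Mathlib
import Pool.Agent.H3.Her.Main
import Pool.Agent.H3.Her.Refl

/-! The balance constants of the zigzag posets are pairwise different. -/

set_option autoImplicit false

namespace Pool.Agent.H3.Her

open Pool.Agent.H13R3.WB Pool.Agent.H931R3.Bal Pool.Agent.R636.BG Pool.Agent.X11.DS

lemma q_le {m : ℕ} (hm : 1 ≤ m) : Zig.q m ≤ 2 / 5 :=
  Zig.prob_le (m := m + 2) (by omega) 0 (by omega)

lemma q_nonneg (m : ℕ) : 0 ≤ Zig.q m := by
  unfold Zig.q prob
  positivity

theorem bal_zig (hr : S_refl) {m : ℕ} (hm : 1 ≤ m) : balance (Zig (m + 2)) = Zig.q m := by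
  apply le_antisymm
  · rcases bal_cases (P := Zig (m + 2)) with h | ⟨x, y, hxy, h⟩
    · rw [h]; exact q_nonneg m
    · rw [h]
      rcases (Zig.inc_iff x y).1 hxy with h1 | h1
      · refine (min_le_right _ _).trans ?_
        have hy := Zig.v_lt y
        have e1 : y = Zig.mk (x.v + 1) (by omega) := Zig.ext (by simp only [Zig.v_mk]; omega)
        have e2 : x = Zig.mk x.v (by omega) := Zig.ext (by simp only [Zig.v_mk])
        have h2 := hr m x.v (by omega)
        rw [← e1, ← e2] at h2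
        exact h2
      · refine (min_le_left _ _).trans ?_
        have hx := Zig.v_lt x
        have e1 : x = Zig.mk (y.v + 1) (by omega) := Zig.ext (by simp only [Zig.v_mk]; omega)
        have e2 : y = Zig.mk y.v (by omega) := Zig.ext (by simp only [Zig.v_mk])
        have h2 := hr m y.v (by omega)
        rw [← e1, ← e2] at h2
        exact h2
  · have hne : (Zig.mk 1 (by omega) : Zig (m + 2)) ≠ Zig.mk 0 (by omega) := by
      intro h
      have := congrArg Zig.v h
      simp only [Zig.v_mk] at this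
      omega
    have h1 := prob_add hne
    have h2 := q_le hm
    have h3 : Zig.q m = min (prob (Zig (m + 2)) (Zig.mk 1 (by omega)) (Zig.mk 0 (by omega)))
        (prob (Zig (m + 2)) (Zig.mk 0 (by omega)) (Zig.mk 1 (by omega))) := by
      rw [min_eq_left]
      · rfl
      · unfold Zig.q at h2
        linarith
    rw [h3]
    unfold balance
    exact le_ciSup (f := fun p : Zig (m + 2) × Zig (m + 2) =>
      min (prob (Zig (m + 2)) p.1 p.2) (prob (Zig (m + 2)) p.2 p.1))
      (Set.finite_range _).bddAbove (Zig.mk 1 (by omega), Zig.mk 0 (by omega))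

/-- the limit of the balance constants -/
noncomputable def xs : ℝ := (3 - √5) / 2

lemma xs_eq : xs * (2 - xs) = 1 - xs := by
  unfold xs
  have h : √5 * √5 = 5 := Real.mul_self_sqrt (by norm_num)
  nlinarith

lemma xs_le : xs ≤ 2 / 5 := by
  unfold xs
  have h : (11 / 5 : ℝ) ≤ √5 := by
    apply Real.le_sqrt_of_sq_le
    norm_num
  linarith

lemma xs_irrational : Irrational xs := by
  have h : Irrational (√5) := by
    have := Nat.Prime.irrational_sqrt (show Nat.Prime 5 by norm_num)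
    exact_mod_cast this
  intro hx
  apply h
  obtain ⟨r, hr⟩ := hx
  refine ⟨3 - 2 * r, ?_⟩
  push_cast
  rw [hr]
  unfold xs
  ring

lemma q_rat (m : ℕ) : ∃ r : ℚ, (r : ℝ) = Zig.q m := by
  unfold Zig.q prob
  exact ⟨(Nat.card _ : ℚ) / (Nat.card _ : ℚ), by push_cast; rfl⟩

lemma q_ne (m : ℕ) : Zig.q m ≠ xs := by
  intro h
  obtain ⟨r, hr⟩ := q_rat m
  exact xs_irrational ⟨r, hr.trans h⟩

lemma q_step (hs : S_rec) {m : ℕ} (hm : 1 ≤ m) :
    2 * |Zig.q (m + 1) - xs| ≤ |Zig.q m - xs| := by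
  have h1 := hs m
  have h2 := q_le hm
  have h3 := xs_le
  have h4 := xs_eq
  have h5 : (Zig.q (m + 1) - xs) * ((2 - Zig.q m) * (2 - xs)) = xs - Zig.q m := by
    have h6 : Zig.q (m + 1) * (2 - Zig.q m) = 1 - Zig.q m := by linarith
    linear_combination (2 - xs) * h6 - (2 - Zig.q m) * h4
  have h7 : 2 ≤ (2 - Zig.q m) * (2 - xs) := by nlinarith
  rw [abs_sub_comm (Zig.q m) xs, ← h5, abs_mul, abs_of_pos (by linarith : 0 < (2 - Zig.q m) * (2 - xs))]
  nlinarith [abs_nonneg (Zig.q (m + 1) - xs)]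

lemma q_far (hs : S_rec) {m : ℕ} (hm : 1 ≤ m) (k : ℕ) :
    2 ^ k * |Zig.q (m + k) - xs| ≤ |Zig.q m - xs| := by
  induction k with
  | zero => simp
  | succ k ih =>
    have h1 := q_step hs (m := m + k) (by omega)
    have h2 : (0 : ℝ) ≤ 2 ^ k := by positivity
    calc (2 : ℝ) ^ (k + 1) * |Zig.q (m + (k + 1)) - xs|
        = 2 ^ k * (2 * |Zig.q (m + k + 1) - xs|) := by rw [pow_succ]; ring_nf
      _ ≤ 2 ^ k * |Zig.q (m + k) - xs| := mul_le_mul_of_nonneg_left h1 h2
      _ ≤ _ := ih

lemma q_inj (hs : S_rec) {m k : ℕ} (hm : 1 ≤ m) (hk : 1 ≤ k) : Zig.q (m + k) ≠ Zig.q m := by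
  intro h
  have h1 := q_far hs hm k
  rw [h] at h1
  have h2 : 0 < |Zig.q m - xs| := abs_pos.2 (sub_ne_zero.2 (q_ne m))
  have h3 : (2 : ℝ) ≤ 2 ^ k := by
    calc (2 : ℝ) = 2 ^ 1 := by norm_num
      _ ≤ 2 ^ k := pow_le_pow_right₀ (by norm_num) hk
  nlinarith

theorem infinite_of_all (hr : S_refl) (hs : S_rec) {C : ∀ (P : Type) [PartialOrder P], Prop}
    (hC : ∀ m, C (Zig m)) :
    {v : ℝ | v ≤ 2 / 5 ∧ ∃ (P : Type) (_ : Fintype P) (_ : PartialOrder P), C P ∧
      balance P = v}.Infinite := by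
  have hinj : Function.Injective (fun m : ℕ => Zig.q (m + 1)) := by
    intro a b hab
    have hab' : Zig.q (a + 1) = Zig.q (b + 1) := hab
    rcases lt_trichotomy a b with h | h | h
    · exfalso
      apply q_inj hs (m := a + 1) (k := b - a) (by omega) (by omega)
      rw [show a + 1 + (b - a) = b + 1 by omega]
      exact hab'.symm
    · exact h
    · exfalso
      apply q_inj hs (m := b + 1) (k := a - b) (by omega) (by omega)
      rw [show b + 1 + (a - b) = a + 1 by omega]
      exact hab'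
  refine (Set.infinite_range_of_injective hinj).mono ?_
  rintro v ⟨m, rfl⟩
  exact ⟨q_le (by omega), Zig (m + 1 + 2), inferInstance, inferInstance, hC _,
    bal_zig hr (by omega)⟩

end Pool.Agent.H3.Her
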