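import Mathlib
import Pool.Agent.H3.Her.Zig2

/-! The recursion for the probability of the end inversion in the posets `Zig m`. -/

set_option autoImplicit false

namespace Pool.Agent.H3.Her

open Pool.Agent.H13R3.WB Pool.Agent.H931R3.Bal Pool.Agent.R636.BG Pool.Agent.X11.DS

namespace Rec

variable {n : ℕ}

/-- the next element -/
def suc (b : Zig n) : Zig (n + 1) := Fin.succ (n := n) b

/-- the first element -/
def zer : Zig (n + 1) := (0 : Fin (n + 1))

lemma v_suc (b : Zig n) : (suc b).v = b.v + 1 := rfl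

lemma v_zer : (zer : Zig (n + 1)).v = 0 := rfl

lemma zs (a : Zig (n + 1)) : a = zer ∨ ∃ b : Zig n, a = suc b := by
  rcases Fin.eq_zero_or_eq_succ (n := n) a with h | ⟨b, h⟩
  · exact Or.inl h
  · exact Or.inr ⟨b, h⟩

/-- the extension by a new first element -/
noncomputable def upE (g : Zig n ≃ Fin n) : Zig (n + 1) ≃ Fin (n + 1) :=
  Equiv.Perm.decomposeFin.symm ((0 : Fin (n + 1)), (g : Equiv.Perm (Fin n)))

lemma upE_zer (g : Zig n ≃ Fin n) : upE g zer = 0 :=
  Equiv.Perm.decomposeFin_symm_apply_zero 0 _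

lemma upE_suc (g : Zig n ≃ Fin n) (b : Zig n) : upE g (suc b) = (g b).succ := by
  have h := Equiv.Perm.decomposeFin_symm_apply_succ (g : Equiv.Perm (Fin n)) 0 b
  rw [Equiv.swap_self] at h
  exact h

lemma up_mono (g : LEn (Zig n) n) : Monotone (upE g.1) := by
  apply mono_of_lt
  intro x y h
  rw [Zig.lt_iff] at h
  rcases zs y with rfl | ⟨b, rfl⟩
  · rw [v_zer] at h; omega
  · rw [upE_suc]
    rcases zs x with rfl | ⟨a, rfl⟩
    · rw [upE_zer]; exact Fin.succ_pos _
    · rw [upE_suc, Fin.succ_lt_succ_iff]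
      apply lt_of_mono g.2
      rw [Zig.lt_iff]
      rw [v_suc, v_suc] at h
      omega

/-- the extension of a linear extension -/
noncomputable def up (g : LEn (Zig n) n) : LEn (Zig (n + 1)) (n + 1) := ⟨upE g.1, up_mono g⟩

lemma up_zer (g : LEn (Zig n) n) : (up g).1 zer = 0 := upE_zer g.1

lemma up_suc (g : LEn (Zig n) n) (b : Zig n) : (up g).1 (suc b) = (g.1 b).succ := upE_suc g.1 b

lemma up_inj {g g' : LEn (Zig n) n} (h : up g = up g') : g = g' := by
  apply Subtype.ext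
  apply Equiv.ext
  intro b
  have h1 : (up g).1 (suc b) = (up g').1 (suc b) := by rw [h]
  rw [up_suc, up_suc] at h1
  exact Fin.succ_injective _ h1

lemma up_surj (f : LEn (Zig (n + 1)) (n + 1)) (h0 : f.1 zer = 0) : ∃ g, up g = f := by
  obtain ⟨pe, hpe⟩ := Equiv.Perm.decomposeFin.symm.surjective (f.1 : Equiv.Perm (Fin (n + 1)))
  obtain ⟨p, e⟩ := pe
  have hp : p = 0 := by
    have h1 := Equiv.Perm.decomposeFin_symm_apply_zero p e
    rw [hpe] at h1
    exact h1.symm.trans h0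
  subst hp
  obtain ⟨e1, he1⟩ : ∃ e1 : Zig n ≃ Fin n, e1 = e := ⟨e, rfl⟩
  have hf : f.1 = upE e1 := by
    rw [he1]
    exact hpe.symm
  have hm : Monotone e1 := by
    apply mono_of_lt
    intro x y hxy
    have h2 : f.1 (suc x) < f.1 (suc y) := lt_of_mono f.2 (by
      rw [Zig.lt_iff] at hxy ⊢
      rw [v_suc, v_suc]
      omega)
    rw [hf, upE_suc, upE_suc, Fin.succ_lt_succ_iff] at h2
    exact h2
  exact ⟨⟨e1, hm⟩, Subtype.ext hf.symm⟩

lemma zer_of (f : LEn (Zig (n + 1)) (n + 1)) (b0 : Zig n) (hb : b0.v = 0)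
    (h : f.1 zer < f.1 (suc b0)) : f.1 zer = 0 := by
  obtain ⟨x, hx⟩ := f.1.surjective 0
  rcases zs x with rfl | ⟨b, rfl⟩
  · exact hx
  · exfalso
    have h1 : f.1 zer < f.1 (suc b) := by
      by_cases h2 : b.v = 0
      · have : b = b0 := Zig.ext (by rw [h2, hb])
        rw [this]; exact h
      · apply lt_of_mono f.2
        rw [Zig.lt_iff, v_zer, v_suc]
        omega
    rw [hx] at h1
    exact absurd h1 (Fin.not_lt_zero _)

lemma ct_up (b0 : Zig n) (hb : b0.v = 0) (B : LEn (Zig (n + 1)) (n + 1) → Prop) :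
    ct (fun f : LEn (Zig (n + 1)) (n + 1) => f.1 zer < f.1 (suc b0) ∧ B f) =
      ct (fun g : LEn (Zig n) n => B (up g)) := by
  classical
  rw [ct_eq, ct_eq]
  symm
  apply Finset.card_bij (fun g _ => up g)
  · intro g hg
    rw [Finset.mem_filter] at hg ⊢
    refine ⟨Finset.mem_univ _, ?_, hg.2⟩
    rw [up_zer, up_suc]
    exact Fin.succ_pos _
  · intro g _ g' _ h
    exact up_inj h
  · intro f hf
    rw [Finset.mem_filter] at hf
    obtain ⟨g, rfl⟩ := up_surj f (zer_of f b0 hb hf.2.1)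
    exact ⟨g, Finset.mem_filter.2 ⟨Finset.mem_univ _, hf.2.2⟩, rfl⟩

end Rec

open Rec in
theorem recq : S_rec := by
  intro m
  -- the elements
  have hN : Fintype.card (Zig (m + 2 + 1)) = m + 2 + 1 := Zig.card
  have hn : Fintype.card (Zig (m + 2)) = m + 2 := Zig.card
  set y0 : Zig (m + 2) := Zig.mk 0 (by omega) with hy0
  set y1 : Zig (m + 2) := Zig.mk 1 (by omega) with hy1
  have hq1 : Zig.q (m + 1) =
      pb (fun f : LEn (Zig (m + 2 + 1)) (m + 2 + 1) => f.1 (suc y0) < f.1 zer) := by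
    rw [← prob_pb hN]
    rfl
  have hq0 : Zig.q m = pb (fun g : LEn (Zig (m + 2)) (m + 2) => g.1 y1 < g.1 y0) := by
    rw [← prob_pb hn]
    rfl
  have v1 : (suc y0).v = 1 := rfl
  have v2 : (suc y1).v = 2 := rfl
  have v0 : (zer : Zig (m + 2 + 1)).v = 0 := rfl
  have ne : ∀ {a b : Zig (m + 2 + 1)}, a.v ≠ b.v → a ≠ b := by
    intro a b h h1
    exact h (by rw [h1])
  have nle : ∀ {a b : Zig (m + 2 + 1)}, a.v ≠ b.v → ¬ a.v + 2 ≤ b.v → ¬ a ≤ b := by
    intro a b h1 h2 h3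
    rw [Zig.le_iff] at h3
    rcases h3 with h3 | h3
    · exact h1 (by rw [h3])
    · exact h2 h3
  have n10 : suc y0 ≠ (zer : Zig (m + 2 + 1)) := ne (by rw [v1, v0]; omega)
  have n20 : suc y1 ≠ (zer : Zig (m + 2 + 1)) := ne (by rw [v2, v0]; omega)
  have n21 : suc y1 ≠ suc y0 := ne (by rw [v2, v1]; omega)
  -- exchange of the first two elements
  have s1 : pb (fun f : LEn (Zig (m + 2 + 1)) (m + 2 + 1) => f.1 (suc y0) < f.1 zer) ≤
      pb (fun f : LEn (Zig (m + 2 + 1)) (m + 2 + 1) => f.1 zer < f.1 (suc y0) ∧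
        f.1 (suc y0) < f.1 (suc y1)) := by
    apply pb_swap (suc y0) zer
    · intro f hf
      refine ⟨hf, nle (by rw [v1, v0]; omega) (by rw [v1, v0]; omega), ?_, ?_⟩
      · intro w hw
        rw [Zig.lt_iff, v0] at hw
        omega
      · intro w hw
        apply lt_of_mono f.2
        rw [Zig.lt_iff, v1] at hw
        rw [Zig.lt_iff, v0]
        omega
    · intro f g hf g1 g2 g3
      refine ⟨by rw [g1, g2]; exact hf, ?_⟩
      rw [g1, g3 (suc y1) n21 n20]
      apply lt_of_mono f.2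
      rw [Zig.lt_iff, v0, v2]
  have s2 : pb (fun f : LEn (Zig (m + 2 + 1)) (m + 2 + 1) => f.1 zer < f.1 (suc y0) ∧
        f.1 (suc y0) < f.1 (suc y1)) ≤
      pb (fun f : LEn (Zig (m + 2 + 1)) (m + 2 + 1) => f.1 (suc y0) < f.1 zer) := by
    apply pb_swap zer (suc y0)
    · intro f hf
      refine ⟨hf.1, nle (by rw [v1, v0]; omega) (by rw [v1, v0]; omega), ?_, ?_⟩
      · intro w hw
        rw [Zig.lt_iff, v1] at hw
        omega
      · intro w hw
        rw [Zig.lt_iff, v0] at hw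
        by_cases hw2 : w.v = 2
        · have : w = suc y1 := Zig.ext (by rw [hw2, v2])
          rw [this]
          exact hf.2
        · apply lt_of_mono f.2
          rw [Zig.lt_iff, v1]
          omega
    · intro f g hf g1 g2 g3
      rw [g1, g2]
      exact hf.1
  have s3 := pb_lt_add (n := m + 2 + 1) hN n10
  have s4 := pb_split (fun f : LEn (Zig (m + 2 + 1)) (m + 2 + 1) => f.1 zer < f.1 (suc y0))
    (fun f => f.1 (suc y0) < f.1 (suc y1))
  -- the count
  have c1 := ct_up y0 rfl (fun _ => True)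
  have c2 := ct_up y0 rfl (fun f => ¬ f.1 (suc y0) < f.1 (suc y1))
  have e0 : (Fintype.card (LEn (Zig (m + 2)) (m + 2)) : ℝ) ≠ 0 := card_ne hn
  have p1 : pb (fun f : LEn (Zig (m + 2 + 1)) (m + 2 + 1) => f.1 zer < f.1 (suc y0)) =
      (Fintype.card (LEn (Zig (m + 2)) (m + 2)) : ℝ) /
        Fintype.card (LEn (Zig (m + 2 + 1)) (m + 2 + 1)) := by
    have h1 : pb (fun f : LEn (Zig (m + 2 + 1)) (m + 2 + 1) => f.1 zer < f.1 (suc y0)) =
        pb (fun f : LEn (Zig (m + 2 + 1)) (m + 2 + 1) => f.1 zer < f.1 (suc y0) ∧ True) :=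
      pb_congr fun f => ⟨fun h => ⟨h, trivial⟩, fun h => h.1⟩
    rw [h1]
    unfold pb
    rw [c1]
    have h2 := pb_true hn (A := fun _ : LEn (Zig (m + 2)) (m + 2) => True) (fun _ => trivial)
    unfold pb at h2
    rw [div_eq_one_iff_eq e0] at h2
    rw [h2]
  have p2 : pb (fun f : LEn (Zig (m + 2 + 1)) (m + 2 + 1) => f.1 zer < f.1 (suc y0) ∧
      ¬ f.1 (suc y0) < f.1 (suc y1)) =
      (ct (fun g : LEn (Zig (m + 2)) (m + 2) => g.1 y1 < g.1 y0) : ℝ) /
        Fintype.card (LEn (Zig (m + 2 + 1)) (m + 2 + 1)) := by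
    unfold pb
    rw [c2]
    have h1 : ct (fun g : LEn (Zig (m + 2)) (m + 2) => ¬ (up g).1 (suc y0) < (up g).1 (suc y1)) =
        ct (fun g : LEn (Zig (m + 2)) (m + 2) => g.1 y1 < g.1 y0) := by
      have h2 : ∀ g : LEn (Zig (m + 2)) (m + 2), ¬ (up g).1 (suc y0) < (up g).1 (suc y1) ↔
          g.1 y1 < g.1 y0 := by
        intro g
        rw [up_suc, up_suc, Fin.succ_lt_succ_iff]
        constructor
        · intro h
          refine lt_of_le_of_ne (not_lt.mp h) fun h3 => ?_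
          have h4 := congrArg Zig.v (g.1.injective h3)
          rw [hy0, hy1, Zig.v_mk, Zig.v_mk] at h4
          omega
        · intro h
          exact not_lt.mpr h.le
      exact le_antisymm (ct_mono fun g => (h2 g).1) (ct_mono fun g => (h2 g).2)
    rw [h1]
  have p3 : pb (fun f : LEn (Zig (m + 2 + 1)) (m + 2 + 1) => f.1 zer < f.1 (suc y0) ∧
      ¬ f.1 (suc y0) < f.1 (suc y1)) =
      Zig.q m * pb (fun f : LEn (Zig (m + 2 + 1)) (m + 2 + 1) => f.1 zer < f.1 (suc y0)) := by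
    rw [p1, p2, hq0]
    unfold pb
    rw [div_mul_div_comm, mul_comm (Fintype.card (LEn (Zig (m + 2)) (m + 2)) : ℝ)
      (Fintype.card (LEn (Zig (m + 2 + 1)) (m + 2 + 1)) : ℝ), mul_div_mul_right _ _ e0]
  have a1 := le_antisymm s1 s2
  rw [← a1, ← hq1, p3] at s4
  rw [← hq1] at s3
  have s5 : pb (fun f : LEn (Zig (m + 2 + 1)) (m + 2 + 1) => f.1 zer < f.1 (suc y0)) =
      1 - Zig.q (m + 1) := by linarith
  rw [s5] at s4
  linarith

end Pool.Agent.H3.Her
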