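import Mathlib
import Pool.Agent.H3.Her.Dist
import Pool.Agent.H3.Her.Rec
import Pool.Graph.R_seed8.H931R3.Bal14

/-! The least balance constants by width in hereditary classes, and the values for zigzag posets. -/

set_option autoImplicit false

namespace Pool.Agent.H3.Her

open Pool.Agent.H13R3.WB Pool.Agent.H931R3.Bal Pool.Agent.R636.BG Pool.Agent.X11.DS

/-! ### the values for zigzag posets -/

lemma q_zero : Zig.q 0 = 1 / 2 := by
  have hn : Fintype.card (Zig 2) = Fintype.card (Zig 2) := rfl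
  have hne : (Zig.mk 1 (by omega) : Zig 2) ≠ Zig.mk 0 (by omega) := by
    intro h
    have := congrArg Zig.v h
    simp only [Zig.v_mk] at this
    omega
  have nolt : ∀ a b : Zig 2, ¬ a < b := by
    intro a b h
    rw [Zig.lt_iff] at h
    have := Zig.v_lt b
    omega
  have hsw : ∀ a b : Zig 2, a ≠ b →
      pb (fun f : LEn (Zig 2) (Fintype.card (Zig 2)) => f.1 a < f.1 b) ≤
      pb (fun f : LEn (Zig 2) (Fintype.card (Zig 2)) => f.1 b < f.1 a) := by
    intro a b hab
    apply pb_swap a b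
    · intro f hf
      refine ⟨hf, fun h => nolt a b (lt_of_le_of_ne h hab), fun w hw => absurd hw (nolt w b),
        fun w hw => absurd hw (nolt a w)⟩
    · intro f g hf g1 g2 _
      rw [g1, g2]
      exact hf
  have h1 := hsw _ _ hne
  have h2 := hsw _ _ hne.symm
  have h3 := pb_lt_add hn hne
  have h4 : Zig.q 0 = pb (fun f : LEn (Zig 2) (Fintype.card (Zig 2)) =>
      f.1 (Zig.mk 1 (by omega)) < f.1 (Zig.mk 0 (by omega))) := prob_pb hn _ _
  rw [h4]
  linarith

lemma q_fib (m : ℕ) : Zig.q m = (Nat.fib (m + 1) : ℝ) / Nat.fib (m + 3) := by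
  induction m with
  | zero => rw [q_zero]; norm_num [Nat.fib]
  | succ m ih =>
    have h1 := recq m
    have p1 : (0 : ℝ) < Nat.fib (m + 3) := by exact_mod_cast Nat.fib_pos.2 (by omega)
    have p2 : (0 : ℝ) < Nat.fib (m + 4) := by exact_mod_cast Nat.fib_pos.2 (by omega)
    have f1 : (Nat.fib (m + 3) : ℝ) = Nat.fib (m + 1) + Nat.fib (m + 2) := by
      exact_mod_cast Nat.fib_add_two
    have f2 : (Nat.fib (m + 4) : ℝ) = Nat.fib (m + 2) + Nat.fib (m + 3) := by
      exact_mod_cast Nat.fib_add_two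
    have e1 : m + 1 + 1 = m + 2 := rfl
    have e2 : m + 1 + 3 = m + 4 := rfl
    rw [e1, e2, eq_div_iff p2.ne']
    have h2 : Zig.q (m + 1) * (2 - Zig.q m) = 1 - Zig.q m := by linarith
    have h3 : Zig.q m * Nat.fib (m + 3) = Nat.fib (m + 1) := by
      rw [ih]; field_simp
    have h4 : Zig.q (m + 1) * ((2 - Zig.q m) * Nat.fib (m + 3)) = (1 - Zig.q m) * Nat.fib (m + 3) := by
      rw [← mul_assoc, h2]
    have h5 : (2 - Zig.q m) * Nat.fib (m + 3) = Nat.fib (m + 4) := by
      rw [sub_mul, h3, f2]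
      linarith
    have h6 : (1 - Zig.q m) * Nat.fib (m + 3) = Nat.fib (m + 2) := by
      rw [sub_mul, h3]
      linarith
    rw [h5, h6] at h4
    exact h4

theorem bal_fib {m : ℕ} (hm : 3 ≤ m) :
    balance (Zig m) = (Nat.fib (m - 1) : ℝ) / Nat.fib (m + 1) := by
  obtain ⟨k, rfl⟩ : ∃ k, m = k + 2 := ⟨m - 2, by omega⟩
  rw [bal_zig refl (by omega), q_fib]
  rfl

/-! ### width -/

lemma indec_of_conn {P : Type} [PartialOrder P] (h : ∀ x y : P, Relation.ReflTransGen Inc x y) :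
    Indecomposable P := by
  rintro ⟨A, ⟨a, ha⟩, ⟨b, hb⟩, hAB⟩
  have key : ∀ y, Relation.ReflTransGen Inc a y → y ∈ A := by
    intro y hy
    induction hy with
    | refl => exact ha
    | tail _ hbc ih =>
      by_contra hc
      exact hbc.1 (hAB _ ih _ hc).le
  exact hb (key b (h a b))

lemma width_comp {P : Type} [PartialOrder P] {w : ℕ} (hw : 1 ≤ w) (h : HasWidth P w) :
    ∃ x : P, HasWidth (comp x) w := by
  classical
  obtain ⟨⟨s, hs, hc⟩, hmax⟩ := h
  have hne : s.Nonempty := by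
    rw [← Finset.card_pos]; omega
  obtain ⟨x, hx⟩ := hne
  refine ⟨x, ⟨s.subtype (· ∈ comp x), ?_, ?_⟩, ?_⟩
  · intro a ha b hb hab
    have ha' : (a : P) ∈ s := by simpa using ha
    have hb' : (b : P) ∈ s := by simpa using hb
    exact hs ha' hb' (fun h1 => hab (Subtype.ext h1))
  · rw [Finset.card_subtype, Finset.filter_true_of_mem, hc]
    intro y hy
    by_cases hxy : x = y
    · subst hxy; exact self_mem_comp x
    · exact comp_step (self_mem_comp x) ⟨hs hx hy hxy, hs hy hx (Ne.symm hxy)⟩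
  · intro t ht
    have h1 : IsAntichain (· ≤ ·) ((t.map (Function.Embedding.subtype _) : Finset P) : Set P) := by
      intro a ha b hb hab
      simp only [Finset.coe_map, Function.Embedding.subtype_apply, Set.mem_image,
        Finset.mem_coe] at ha hb
      obtain ⟨a', ha', rfl⟩ := ha
      obtain ⟨b', hb', rfl⟩ := hb
      exact ht ha' hb' (fun h2 => hab (congrArg Subtype.val h2))
    have h2 := hmax _ h1
    rwa [Finset.card_map] at h2

theorem width_min {B : ℝ} (h : Good B) {C : ∀ (P : Type) [PartialOrder P], Prop}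
    (hC : Hereditary C) {m : ℕ} (hm : ¬ C (Zig m)) {ε : ℝ} (h1 : 0 < ε) (h2 : ε ≤ 1 / 2)
    (P : Type) [Fintype P] [PartialOrder P] (w : ℕ) (hw : 1 ≤ w) (hP : C P) (hPw : HasWidth P w)
    (hb : balance P < 1 / 2 - ε) :
      ∃ (P₀ : Type) (_ : Fintype P₀) (_ : PartialOrder P₀), C P₀ ∧ HasWidth P₀ w ∧
        Indecomposable P₀ ∧ Fintype.card P₀ ≤ KK B ε ^ m ∧
        ∀ (Q : Type) [Fintype Q] [PartialOrder Q], C Q → HasWidth Q w →
          balance P₀ ≤ balance Q := by
  classical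
  set S : Set ℝ := {v : ℝ | ∃ (Q : Type) (_ : Fintype Q) (_ : PartialOrder Q), (C Q ∧ HasWidth Q w) ∧
    balance Q = v} with hS
  have hfin : ∀ c : ℝ, c < 1 / 2 → {v : ℝ | v ≤ c ∧ v ∈ S}.Finite := by
    intro c hc
    refine (spectrum hC hm c hc).subset ?_
    rintro v ⟨h3, Q, i1, i2, h4, h5⟩
    exact ⟨h3, Q, i1, i2, h4.1, h5⟩
  have hhalf : ∀ v ∈ S, v ≤ 1 / 2 := by
    rintro v ⟨Q, i1, i2, h4, rfl⟩
    exact bal_le_half Q
  obtain ⟨v, ⟨Q, i1, i2, ⟨hQC, hQw⟩, hQv⟩, hmin⟩ :=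
    attained hfin hhalf ⟨balance P, P, inferInstance, inferInstance, ⟨hP, hPw⟩, rfl⟩
  have hPv : v ≤ balance P := hmin ⟨P, inferInstance, inferInstance, ⟨hP, hPw⟩, rfl⟩
  obtain ⟨x, hx⟩ := width_comp hw hQw
  have hd : DiamLe m Q := diam_of_omit hC hm Q hQC
  have hcard := card_comp (h ε h1 h2) hd (by rw [hQv]; linarith) x
  have hb0 : balance (comp x) ≤ v := by rw [← hQv]; exact bal_comp_le x
  refine ⟨comp x, inferInstance, inferInstance, hC Q (comp x) hQC ⟨OrderEmbedding.subtype _⟩, hx,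
    indec_of_conn (fun a b => near_rtg (comp_near hd x a b)), hcard, ?_⟩
  intro R _ _ hR hRw
  exact hb0.trans (hmin ⟨R, inferInstance, inferInstance, ⟨hR, hRw⟩, rfl⟩)

end Pool.Agent.H3.Her
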