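import Mathlib
import Pool.Agent.H3.Her.Width

/-! Posets in which every element is incomparable to few others: the number of elements is bounded by the
length of the longest zigzag. -/

set_option autoImplicit false

open Finset

namespace Pool.Agent.H3.Her

open Pool.Agent.H13R3.WB Pool.Agent.H931R3.Bal Pool.Agent.R636.BG Pool.Agent.X11.DS

section count

variable {P : Type} [Fintype P] [PartialOrder P]

open Classical in
/-- the number of elements below `x` -/
noncomputable def dn (x : P) : ℕ := (univ.filter fun z : P => z < x).card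

open Classical in
/-- the number of elements incomparable to `x` -/
noncomputable def nc (x : P) : ℕ := (univ.filter fun z : P => Inc x z).card

lemma dn_step {x y : P} (h : Inc x y) : dn y ≤ dn x + nc x := by
  classical
  unfold dn nc
  refine (card_le_card ?_).trans (card_union_le _ _)
  intro z hz
  have hz' : z < y := (mem_filter.1 hz).2
  rw [mem_union, mem_filter, mem_filter]
  by_cases h1 : z < x
  · exact Or.inl ⟨mem_univ _, h1⟩
  · right
    refine ⟨mem_univ _, fun h2 => h.1 (h2.trans hz'.le), fun h2 => ?_⟩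
    rcases h2.eq_or_lt with h3 | h3
    · exact h.1 (h3 ▸ hz'.le)
    · exact h1 h3

lemma dn_near {D : ℕ} (hD : ∀ x : P, nc x ≤ D) (n : ℕ) {x y : P} (h : Near n x y) :
    dn y ≤ dn x + n * D := by
  induction n generalizing y with
  | zero =>
    have h1 : x = y := h
    subst h1
    omega
  | succ n ih =>
    obtain ⟨z, hz, hzy⟩ := h
    have h1 := ih hz
    rw [Nat.succ_mul]
    rcases hzy with h2 | h2
    · subst h2; omega
    · have h3 := dn_step h2
      have h4 := hD z
      omega

lemma card_max {b : P} (hb : ∀ z : P, ¬ b < z) : Fintype.card P ≤ dn b + nc b + 1 := by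
  classical
  have h1 : (univ : Finset P) ⊆ insert b ((univ.filter fun z : P => z < b) ∪
      (univ.filter fun z : P => Inc b z)) := by
    intro z _
    rw [mem_insert, mem_union, mem_filter, mem_filter]
    by_cases h1 : z = b
    · exact Or.inl h1
    · right
      by_cases h2 : z < b
      · exact Or.inl ⟨mem_univ _, h2⟩
      · right
        exact ⟨mem_univ _, fun h3 => hb z (lt_of_le_of_ne h3 (Ne.symm h1)),
          fun h3 => h2 (lt_of_le_of_ne h3 h1)⟩
  have h2 := card_le_card h1
  have h3 := card_insert_le b ((univ.filter fun z : P => z < b) ∪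
      (univ.filter fun z : P => Inc b z))
  have h4 := card_union_le (univ.filter fun z : P => z < b) (univ.filter fun z : P => Inc b z)
  rw [card_univ] at h2
  unfold dn nc
  omega

theorem card_of_diam {D d : ℕ} (hD : ∀ x : P, Nat.card {y : P // Inc x y} + 1 ≤ D)
    (hd : ∀ x y : P, Near d x y) : Fintype.card P ≤ (d + 1) * D := by
  classical
  rcases isEmpty_or_nonempty P with hP | hP
  · rw [Fintype.card_eq_zero]; omega
  obtain ⟨b, hb⟩ := (univ : Finset P).exists_maximal univ_nonempty
  obtain ⟨a, ha⟩ := (univ : Finset P).exists_minimal univ_nonempty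
  have hnc : ∀ x : P, nc x + 1 ≤ D := by
    intro x
    have h1 := hD x
    rw [Nat.card_eq_fintype_card, Fintype.card_subtype] at h1
    have h2 : nc x = (univ.filter fun y : P => Inc x y).card := by
      unfold nc
      congr
    omega
  have h1 : dn a = 0 := by
    unfold dn
    rw [card_eq_zero, filter_eq_empty_iff]
    intro z _ hz
    exact absurd (ha.2 (mem_univ z) hz.le) (not_le_of_gt hz)
  have h2 := card_max (b := b) (fun z hz => absurd (hb.2 (mem_univ z) hz.le) (not_le_of_gt hz))
  have h3 := dn_near (D := D - 1) (fun x => by have := hnc x; omega) d (hd a b)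
  have h4 := hnc b
  obtain ⟨E, rfl⟩ : ∃ E, D = E + 1 := ⟨D - 1, by omega⟩
  rw [h1, Nat.add_sub_cancel] at h3
  have h5 : (d + 1) * (E + 1) = d * E + d + E + 1 := by ring
  rw [h5]
  omega

end count

/-- `P` contains a long zigzag if it has no short one -/
theorem near_of_omit {P : Type} [PartialOrder P] (hI : Indecomposable P) {m : ℕ}
    (hm : ¬ Nonempty (Zig m ↪o P)) (hP : Nonempty P) : 2 ≤ m ∧ ∀ x y : P, Near (m - 2) x y := by
  have h2 : 2 ≤ m := by
    by_contra hlt
    apply hm
    obtain ⟨x⟩ := hP
    have hsub : ∀ i j : Fin m, i = j := by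
      intro i j
      have hi := i.2
      have hj := j.2
      exact Fin.ext (by omega)
    refine embed_of_path (fun _ => x) (fun i j _ => hsub i j) ?_
    intro i j
    rw [hsub i j]
    constructor
    · intro h; exact absurd le_rfl h.1
    · intro h; omega
  refine ⟨h2, fun x y => ?_⟩
  have h3 : DiamLe (m - 2) P := by
    apply diamLe_of_noInducedPath
    rw [Nat.sub_add_cancel h2]
    rintro ⟨p, hinj, hp⟩
    exact hm (embed_of_path p hinj hp)
  exact h3 x y (hI.conn x y)

/-- **Long zigzags.** -/
theorem long_zig {B : ℝ} (h : Good B) {ε : ℝ} (h1 : 0 < ε) (h2 : ε ≤ 1 / 2)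
    (P : Type) [Fintype P] [PartialOrder P] (hI : Indecomposable P) {m : ℕ}
    (hcard : m * KK B ε < Fintype.card P) (hb : balance P < 1 / 2 - ε) :
    Nonempty (Zig m ↪o P) := by
  by_contra hno
  have hne : Nonempty P := Fintype.card_pos_iff.1 (lt_of_le_of_lt (Nat.zero_le _) hcard)
  obtain ⟨h3, h4⟩ := near_of_omit hI hno hne
  have h5 := card_of_diam (h ε h1 h2 P hb) h4
  have h6 : (m - 2 + 1) * KK B ε ≤ m * KK B ε := Nat.mul_le_mul_right _ (by omega)
  omega

theorem width_min_lin {B : ℝ} (h : Good B) {C : ∀ (P : Type) [PartialOrder P], Prop}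
    (hC : Hereditary C) {m : ℕ} (hm : ¬ C (Zig m)) {ε : ℝ} (h1 : 0 < ε) (h2 : ε ≤ 1 / 2)
    (P : Type) [Fintype P] [PartialOrder P] (w : ℕ) (hw : 1 ≤ w) (hP : C P) (hPw : HasWidth P w)
    (hb : balance P < 1 / 2 - ε) :
      ∃ (P₀ : Type) (_ : Fintype P₀) (_ : PartialOrder P₀), C P₀ ∧ HasWidth P₀ w ∧
        Indecomposable P₀ ∧ Fintype.card P₀ ≤ m * KK B ε ∧
        ∀ (Q : Type) [Fintype Q] [PartialOrder Q], C Q → HasWidth Q w →
          balance P₀ ≤ balance Q := by
  obtain ⟨P₀, i1, i2, h3, h4, h5, -, h6⟩ := width_min h hC hm h1 h2 P w hw hP hPw hb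
  refine ⟨P₀, i1, i2, h3, h4, h5, ?_, fun Q _ _ hQ hQw => h6 Q hQ hQw⟩
  by_contra hcard
  rw [not_le] at hcard
  have h7 : balance P₀ < 1 / 2 - ε := (h6 P hP hPw).trans_lt hb
  exact hm (hC P₀ (Zig m) h3 (long_zig h h1 h2 P₀ h5 hcard h7))

end Pool.Agent.H3.Her
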