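import Mathlib
import Pool.Agent.H3.Her.Lin

/-! Posets whose cover graph does not have many vertex-disjoint cycles contain no long zigzag. -/

set_option autoImplicit false

namespace Pool.Agent.H3.Her

open Pool.Agent.H13R3.WB Pool.Agent.H931R3.Bal Pool.Agent.R636.BG Pool.Agent.X11.DS

/-- there are `k` pairwise vertex-disjoint cycles in the graph -/
def DisjointCycles {V : Type} (G : SimpleGraph V) (k : ℕ) : Prop :=
  ∃ S : Fin k → Set V, (∀ i j, i ≠ j → Disjoint (S i) (S j)) ∧ ∀ i, ¬ (G.induce (S i)).IsAcyclic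

/-- there are `k` intervals `[a i, b i]` which are not chains, and `a j` is not below `b i` for `i < j`
(so the intervals are disjoint) -/
def Diamonds (k : ℕ) (P : Type) [PartialOrder P] : Prop :=
  ∃ a x y b : Fin k → P, (∀ i, a i ≤ x i ∧ a i ≤ y i ∧ x i ≤ b i ∧ y i ≤ b i ∧ Inc (x i) (y i)) ∧
    ∀ i j, i < j → ¬ a j ≤ b i

theorem Diamonds.disjointCycles {P : Type} [PartialOrder P] [Finite P] {k : ℕ}
    (h : Diamonds k P) : DisjointCycles (SimpleGraph.hasse P) k := by
  obtain ⟨a, x, y, b, h1, h2⟩ := h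
  refine ⟨fun i => Set.Icc (a i) (b i), ?_, ?_⟩
  · have key : ∀ i j, i < j → Disjoint (Set.Icc (a i) (b i)) (Set.Icc (a j) (b j)) := by
      intro i j hij
      rw [Set.disjoint_left]
      intro z hz hz'
      exact h2 i j hij (hz'.1.trans hz.2)
    intro i j hij
    rcases lt_or_gt_of_ne hij with h3 | h3
    · exact key i j h3
    · exact (key j i h3).symm
  · intro i hac
    obtain ⟨g1, g2, g3, g4, g5⟩ := h1 i
    have hle : SimpleGraph.hasse (Set.Icc (a i) (b i)) ≤
        (SimpleGraph.hasse P).induce (Set.Icc (a i) (b i)) := by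
      have key : ∀ u v : Set.Icc (a i) (b i), u ⋖ v → (u : P) ⋖ (v : P) := by
        intro u v huv
        refine ⟨huv.1, fun c hc hc' => ?_⟩
        exact huv.2 (c := ⟨c, u.2.1.trans hc.le, hc'.le.trans v.2.2⟩) hc hc'
      intro u v huv
      rw [SimpleGraph.comap_adj]
      rcases huv with huv | huv
      · exact Or.inl (key u v huv)
      · exact Or.inr (key v u huv)
    have h3 : (SimpleGraph.hasse (Set.Icc (a i) (b i))).IsAcyclic := hac.anti hle
    have h4 := diamondFree_of_acyclic h3 ⟨a i, le_rfl, g1.trans g3⟩ ⟨x i, g1, g3⟩ ⟨y i, g2, g4⟩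
      ⟨b i, g1.trans g3, le_rfl⟩ g1 g2 g3 g4
    rcases h4 with h5 | h5
    · exact g5.1 h5
    · exact g5.2 h5

theorem Diamonds.mono {P Q : Type} [PartialOrder P] [PartialOrder Q] {k : ℕ} (e : Q ↪o P)
    (h : Diamonds k Q) : Diamonds k P := by
  obtain ⟨a, x, y, b, h1, h2⟩ := h
  refine ⟨fun i => e (a i), fun i => e (x i), fun i => e (y i), fun i => e (b i), fun i => ?_,
    fun i j hij hle => h2 i j hij (e.le_iff_le.1 hle)⟩
  obtain ⟨g1, g2, g3, g4, g5⟩ := h1 i
  exact ⟨e.monotone g1, e.monotone g2, e.monotone g3, e.monotone g4,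
    fun h3 => g5.1 (e.le_iff_le.1 h3), fun h3 => g5.2 (e.le_iff_le.1 h3)⟩

theorem hereditary_diamonds (k : ℕ) : Hereditary (fun P _ => ¬ Diamonds k P) := by
  intro P Q _ _ h ⟨e⟩ hQ
  exact h (hQ.mono e)

theorem zig_diamonds (k : ℕ) : Diamonds k (Zig (6 * k)) := by
  have hi : ∀ i : Fin k, 6 * (i : ℕ) + 5 < 6 * k := fun i => by have := i.2; omega
  have h0 : ∀ i : Fin k, 6 * (i : ℕ) < 6 * k := fun i => lt_of_le_of_lt (by omega) (hi i)
  have h2 : ∀ i : Fin k, 6 * (i : ℕ) + 2 < 6 * k := fun i => lt_of_le_of_lt (by omega) (hi i)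
  have h3 : ∀ i : Fin k, 6 * (i : ℕ) + 3 < 6 * k := fun i => lt_of_le_of_lt (by omega) (hi i)
  refine ⟨fun i => Zig.mk (6 * (i : ℕ)) (h0 i), fun i => Zig.mk (6 * (i : ℕ) + 2) (h2 i),
    fun i => Zig.mk (6 * (i : ℕ) + 3) (h3 i), fun i => Zig.mk (6 * (i : ℕ) + 5) (hi i),
    fun i => ?_, ?_⟩
  · refine ⟨?_, ?_, ?_, ?_, ?_⟩
    · rw [Zig.le_iff]; right; simp only [Zig.v_mk]; omega
    · rw [Zig.le_iff]; right; simp only [Zig.v_mk]; omega
    · rw [Zig.le_iff]; right; simp only [Zig.v_mk]; omega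
    · rw [Zig.le_iff]; right; simp only [Zig.v_mk]; omega
    · exact (Zig.inc_iff _ _).2 (Or.inl rfl)
  · intro i j hij hle
    have hij' : (i : ℕ) < j := hij
    rw [Zig.le_iff] at hle
    rcases hle with h1 | h1
    · have := congrArg Zig.v h1
      simp only [Zig.v_mk] at this
      omega
    · simp only [Zig.v_mk] at h1
      omega

theorem cycles_of_small {B : ℝ} (h : Good B) {ε : ℝ} (h1 : 0 < ε) (h2 : ε ≤ 1 / 2)
    (P : Type) [Fintype P] [PartialOrder P] (hI : Indecomposable P) {k : ℕ}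
    (hcard : 6 * k * KK B ε < Fintype.card P) (hb : balance P < 1 / 2 - ε) :
    DisjointCycles (SimpleGraph.hasse P) k := by
  obtain ⟨e⟩ := long_zig h h1 h2 P hI hcard hb
  exact ((zig_diamonds k).mono e).disjointCycles

end Pool.Agent.H3.Her
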